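import Pool.Agent.Lib.lead.CXBase

/-!
# The red-blue cut problem in directed graphs is NP-complete
-/

set_option autoImplicit false

namespace Pool.Agent.Results.MP_ac2b6c_lc.DirectedRedBlueCutNPComplete

open Pool.Agent.Lib.CX

/-- An input: the number of vertices (in unary; the vertices are `0, 1, …`), the list of the red
arcs `(tail, head)`, the list of the blue arcs, and the two bounds `r` and `b`. -/
abbrev Inst := List Unit × (List (ℕ × ℕ) × List (ℕ × ℕ)) × (ℕ × ℕ)

/-- the number of vertices -/
abbrev Inst.n (a : Inst) : ℕ := a.1.length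
/-- the red arcs -/
abbrev Inst.red (a : Inst) : List (ℕ × ℕ) := a.2.1.1
/-- the blue arcs -/
abbrev Inst.blue (a : Inst) : List (ℕ × ℕ) := a.2.1.2
/-- the bound for the red arcs -/
abbrev Inst.r (a : Inst) : ℕ := a.2.2.1
/-- the bound for the blue arcs -/
abbrev Inst.b (a : Inst) : ℕ := a.2.2.2

/-- The input describes a simple directed graph on the vertices `0, …, n - 1` whose arcs are coloured
red or blue: no loops, and no ordered pair is listed twice (in one colour or in both colours). -/
def Valid (a : Inst) : Prop :=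
  (∀ e ∈ a.red ++ a.blue, e.1 ≠ e.2 ∧ e.1 < a.n ∧ e.2 < a.n) ∧ (a.red ++ a.blue).Nodup

/-- the number of the listed arcs that leave `X` -/
def outSize (X : Finset ℕ) (E : List (ℕ × ℕ)) : ℕ :=
  (E.filter fun e => decide (e.1 ∈ X ∧ e.2 ∉ X)).length

/-- There is a nonempty proper subset `X` of the vertex set such that at most `r` red arcs and at most
`b` blue arcs leave `X`. -/
def HasCut (a : Inst) : Prop :=
  ∃ X : Finset ℕ, X.Nonempty ∧ X ⊂ Finset.range a.n ∧ outSize X a.red ≤ a.r ∧ outSize X a.blue ≤ a.b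

/-- which pairs are red arcs -/
def redP (n : ℕ) (es : List (ℕ × ℕ)) (p : ℕ × ℕ) : Prop :=
  p.1 ≠ p.2 ∧ ((n + es.length ≤ p.2 ∧ p.2 < n + es.length + (es.length + 2)) ∨
    (n + es.length + (es.length + 2) ≤ p.1) ∨
    (p.1 = n + es.length ∧ n ≤ p.2 ∧ p.2 < n + es.length) ∨
    (n ≤ p.1 ∧ p.1 < n + es.length ∧
      (p.2 = (es.getD (p.1 - n) (0, 0)).1 ∨ p.2 = (es.getD (p.1 - n) (0, 0)).2)))

instance (n : ℕ) (es : List (ℕ × ℕ)) (p : ℕ × ℕ) : Decidable (redP n es p) := by
  unfold redP; infer_instance

/-- the number of vertices of the new digraph -/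
def vn (n : ℕ) (es : List (ℕ × ℕ)) : ℕ := n + es.length + (es.length + 2) + (es.length + 2)

/-- the red arcs of the reduction -/
def redA (n : ℕ) (es : List (ℕ × ℕ)) : List (ℕ × ℕ) :=
  (List.range (vn n es) ×ˢ List.range (vn n es)).filter fun p => decide (redP n es p)

/-- the blue arcs of the reduction -/
def blueA (n : ℕ) (es : List (ℕ × ℕ)) : List (ℕ × ℕ) :=
  (List.range n).map fun v => (v, n + es.length + (es.length + 2))

/-- the reduction from clique -/
def red (a : List Unit × List (ℕ × ℕ) × ℕ) : Inst :=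
  if a.2.2 ≤ a.1.length ∧ a.2.2 * (a.2.2 - 1) ≤ 2 * a.2.1.length then
    (List.replicate (vn a.1.length a.2.1) (), (redA a.1.length a.2.1, blueA a.1.length a.2.1),
      (a.2.1.length - a.2.2 * (a.2.2 - 1) / 2, a.2.2))
  else ([(), ()], ([(0, 1), (1, 0)], []), (0, 0))

theorem red_pt : PT red := by
  unfold red redA blueA redP vn
  fun_prop

theorem outSize_eq {X : Finset ℕ} {E : List (ℕ × ℕ)} (h : E.Nodup) :
    outSize X E = (E.toFinset.filter fun e => e.1 ∈ X ∧ e.2 ∉ X).card := by
  rw [outSize, ← List.toFinset_card_of_nodup (h.filter _), List.toFinset_filter]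
  simp

theorem redA_nodup (n : ℕ) (es : List (ℕ × ℕ)) : (redA n es).Nodup :=
  (List.nodup_range.product List.nodup_range).filter _

theorem blueA_nodup (n : ℕ) (es : List (ℕ × ℕ)) : (blueA n es).Nodup :=
  List.nodup_range.map fun a b h => by simpa using h

theorem mem_redA {n : ℕ} {es : List (ℕ × ℕ)} {p : ℕ × ℕ} :
    p ∈ redA n es ↔ p.1 < vn n es ∧ p.2 < vn n es ∧ redP n es p := by
  unfold redA
  rw [List.mem_filter, List.mem_product]
  simp [and_assoc]

theorem mem_blueA {n : ℕ} {es : List (ℕ × ℕ)} {p : ℕ × ℕ} :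
    p ∈ blueA n es ↔ p.1 < n ∧ p.2 = n + es.length + (es.length + 2) := by
  unfold blueA
  simp only [List.mem_map, List.mem_range]
  constructor
  · rintro ⟨v, hv, rfl⟩; exact ⟨hv, rfl⟩
  · rintro ⟨h1, h2⟩; exact ⟨p.1, h1, by rw [← h2]⟩

theorem getD_lt {n : ℕ} {es : List (ℕ × ℕ)} (h1 : ∀ e ∈ es, e.1 < e.2 ∧ e.2 < n) {j : ℕ}
    (hj : j < es.length) : (es.getD j (0, 0)).1 < (es.getD j (0, 0)).2 ∧ (es.getD j (0, 0)).2 < n := by
  rw [List.getD_eq_getElem _ _ hj]
  exact h1 _ (List.getElem_mem hj)

theorem valid_red {N : List Unit} {es : List (ℕ × ℕ)} {k : ℕ} : Valid (red (N, es, k)) := by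
  unfold red
  split
  swap
  · refine ⟨?_, ?_⟩
    · simp [Inst.red, Inst.blue, Inst.n]
    · simp [Inst.red, Inst.blue]
  refine ⟨?_, ?_⟩
  · intro e he
    simp only [Inst.n, Inst.red, Inst.blue, List.length_replicate] at he ⊢
    rcases List.mem_append.1 he with he | he
    · rw [mem_redA] at he
      exact ⟨he.2.2.1, he.1, he.2.1⟩
    · rw [mem_blueA] at he
      unfold vn
      omega
  · simp only [Inst.red, Inst.blue]
    refine List.Nodup.append (redA_nodup _ _) (blueA_nodup _ _) ?_
    intro e he hb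
    rw [mem_redA] at he
    rw [mem_blueA] at hb
    obtain ⟨-, -, -, h⟩ := he
    rcases h with h | h | h | ⟨h2, h3, h⟩
    · omega
    · omega
    · omega
    · omega

/-- the number of pairs `x < y` of elements of `S` -/
theorem card_pairs (S : Finset ℕ) :
    2 * ((S ×ˢ S).filter fun p => p.1 < p.2).card = S.card * (S.card - 1) := by
  have h1 : S.offDiag.card = S.card * (S.card - 1) := by
    rw [Finset.offDiag_card, Nat.mul_sub, mul_one]
  have h2 : ((S ×ˢ S).filter fun p => p.2 < p.1).card = ((S ×ˢ S).filter fun p => p.1 < p.2).card := by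
    refine Finset.card_bij' (fun p _ => (p.2, p.1)) (fun p _ => (p.2, p.1)) ?_ ?_ ?_ ?_ <;>
      simp +contextual
  have h3 : S.offDiag = ((S ×ˢ S).filter fun p => p.1 < p.2) ∪ ((S ×ˢ S).filter fun p => p.2 < p.1) := by
    ext ⟨a, b⟩
    simp only [Finset.mem_offDiag, Finset.mem_union, Finset.mem_filter, Finset.mem_product]
    constructor
    · rintro ⟨h4, h5, h6⟩
      rcases lt_or_gt_of_ne h6 with h | h
      · exact Or.inl ⟨⟨h4, h5⟩, h⟩
      · exact Or.inr ⟨⟨h4, h5⟩, h⟩
    · rintro (⟨⟨h4, h5⟩, h⟩ | ⟨⟨h4, h5⟩, h⟩)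
      · exact ⟨h4, h5, h.ne⟩
      · exact ⟨h4, h5, h.ne'⟩
  rw [← h1, h3, Finset.card_union_of_disjoint, h2, two_mul]
  rw [Finset.disjoint_left]
  simp only [Finset.mem_filter, Finset.mem_product]
  rintro ⟨a, b⟩ ⟨-, h⟩ ⟨-, h'⟩
  exact lt_asymm h h'

/-- the indices of the listed pairs inside `S` -/
def ins (S : Finset ℕ) (es : List (ℕ × ℕ)) : Finset ℕ :=
  (Finset.range es.length).filter fun j => (es.getD j (0, 0)).1 ∈ S ∧ (es.getD j (0, 0)).2 ∈ S

theorem ins_le {S : Finset ℕ} {es : List (ℕ × ℕ)} {n : ℕ} (h1 : ∀ e ∈ es, e.1 < e.2 ∧ e.2 < n)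
    (h2 : es.Nodup) : (ins S es).card ≤ ((S ×ˢ S).filter fun p => p.1 < p.2).card := by
  refine Finset.card_le_card_of_injOn (fun j => es.getD j (0, 0)) ?_ ?_
  · intro j hj
    simp only [ins, Finset.coe_filter, Finset.mem_range, Set.mem_ofPred_eq] at hj
    simp only [Finset.coe_filter, Finset.mem_product, Set.mem_ofPred_eq]
    exact ⟨hj.2, (getD_lt h1 hj.1).1⟩
  · intro i hi j hj hij
    simp only [ins, Finset.coe_filter, Finset.mem_range, Set.mem_ofPred_eq] at hi hj
    dsimp only at hij
    rw [List.getD_eq_getElem _ _ hi.1, List.getD_eq_getElem _ _ hj.1] at hij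
    exact (h2.getElem_inj_iff).1 hij

theorem ins_ge {S : Finset ℕ} {es : List (ℕ × ℕ)}
    (h : ∀ x ∈ S, ∀ y ∈ S, x < y → (x, y) ∈ es) :
    ((S ×ˢ S).filter fun p => p.1 < p.2).card ≤ (ins S es).card := by
  refine Finset.card_le_card_of_injOn (fun p => es.idxOf p) ?_ ?_
  · intro p hp
    simp only [Finset.coe_filter, Finset.mem_product, Set.mem_ofPred_eq] at hp
    have h1 : p ∈ es := h p.1 hp.1.1 p.2 hp.1.2 hp.2
    have h2 : es.idxOf p < es.length := List.idxOf_lt_length_of_mem h1
    simp only [ins, Finset.coe_filter, Finset.mem_range, Set.mem_ofPred_eq]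
    refine ⟨h2, ?_⟩
    rw [List.getD_eq_getElem _ _ h2, List.getElem_idxOf h2]
    exact hp.1
  · intro p hp q hq hpq
    simp only [Finset.coe_filter, Finset.mem_product, Set.mem_ofPred_eq] at hp hq
    have h1 : p ∈ es := h p.1 hp.1.1 p.2 hp.1.2 hp.2
    exact (List.idxOf_inj h1).1 hpq

theorem correct_mp {n : ℕ} {es : List (ℕ × ℕ)} {S : Finset ℕ}
    (h3 : ∀ x ∈ S, x < n) (h4 : ∀ x ∈ S, ∀ y ∈ S, x < y → (x, y) ∈ es) :
    ∃ X : Finset ℕ, X.Nonempty ∧ X ⊂ Finset.range (vn n es) ∧
      outSize X (redA n es) ≤ es.length - S.card * (S.card - 1) / 2 ∧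
      outSize X (blueA n es) ≤ S.card := by
  set m := es.length with hm
  let X : Finset ℕ := (Finset.range (vn n es)).filter fun x => x ∈ S ∨
    (n ≤ x ∧ x < n + m ∧ x - n ∈ ins S es) ∨ (n + m ≤ x ∧ x < n + m + (m + 2))
  have hX : ∀ x, x ∈ X ↔ (x < vn n es ∧ (x ∈ S ∨ (n ≤ x ∧ x < n + m ∧ x - n ∈ ins S es) ∨
      (n + m ≤ x ∧ x < n + m + (m + 2)))) := by
    intro x; simp [X]
  have hvn : vn n es = n + m + (m + 2) + (m + 2) := rfl
  have hinsmem : ∀ j, j ∈ ins S es ↔ (j < m ∧ (es.getD j (0, 0)).1 ∈ S ∧ (es.getD j (0, 0)).2 ∈ S) := by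
    intro j; simp [ins, hm]
  refine ⟨X, ⟨n + m, ?_⟩, ?_, ?_, ?_⟩
  · rw [hX]; exact ⟨by omega, Or.inr (Or.inr (by omega))⟩
  · rw [Finset.ssubset_iff_of_subset (Finset.filter_subset _ _)]
    refine ⟨n + m + (m + 2), Finset.mem_range.2 (by omega), ?_⟩
    rw [hX]
    rintro ⟨-, h | h | h⟩
    · have := h3 _ h; omega
    · omega
    · omega
  · rw [outSize_eq (redA_nodup n es)]
    have hc : ((Finset.range m) \ ins S es).card = m - (ins S es).card := by
      have : ins S es ⊆ Finset.range m := Finset.filter_subset _ _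
      rw [Finset.card_sdiff_of_subset this, Finset.card_range]
    have hp := ins_ge h4
    have hcp := card_pairs S
    have : ((redA n es).toFinset.filter fun e => e.1 ∈ X ∧ e.2 ∉ X).card ≤
        ((Finset.range m) \ ins S es).card := by
      refine Finset.card_le_card_of_injOn (fun p => p.2 - n) ?_ ?_
      · rintro ⟨x, y⟩ hp
        simp only [Finset.coe_filter, List.mem_toFinset, Set.mem_ofPred_eq, mem_redA] at hp
        obtain ⟨⟨hx, hy, hne, hr⟩, hxX, hyX⟩ := hp
        simp only at hx hy hne hr
        simp only [Finset.coe_sdiff, Finset.coe_range, Set.mem_sdiff, Set.mem_Iio, Finset.mem_coe]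
        rcases hr with hr | hr | hr | hr
        · exact absurd ((hX y).2 ⟨hy, Or.inr (Or.inr hr)⟩) hyX
        · rw [hX] at hxX
          rcases hxX with ⟨-, h | h | h⟩
          · have := h3 _ h; omega
          · omega
          · omega
        · refine ⟨by omega, fun hin => hyX ((hX y).2 ⟨hy, Or.inr (Or.inl ⟨by omega, by omega, hin⟩)⟩)⟩
        · obtain ⟨a1, a2, a3⟩ := hr
          have hin : x - n ∈ ins S es := by
            rw [hX] at hxX
            rcases hxX with ⟨-, h | h | h⟩
            · have := h3 _ h; omega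
            · exact h.2.2
            · omega
          rw [hinsmem] at hin
          exfalso
          apply hyX
          rw [hX]
          refine ⟨hy, Or.inl ?_⟩
          rcases a3 with a3 | a3
          · rw [a3]; exact hin.2.1
          · rw [a3]; exact hin.2.2
      · rintro ⟨x, y⟩ hp ⟨x', y'⟩ hp' hyy
        have key : ∀ x y : ℕ, (x, y) ∈ ((redA n es).toFinset.filter fun e => e.1 ∈ X ∧ e.2 ∉ X) →
            x = n + m ∧ n ≤ y := by
          intro x y hp
          simp only [Finset.mem_filter, List.mem_toFinset, mem_redA] at hp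
          obtain ⟨⟨hx, hy, hne, hr⟩, hxX, hyX⟩ := hp
          rcases hr with hr | hr | hr | hr
          · exact absurd ((hX y).2 ⟨hy, Or.inr (Or.inr hr)⟩) hyX
          · rw [hX] at hxX
            rcases hxX with ⟨-, h | h | h⟩
            · have := h3 _ h; omega
            · omega
            · omega
          · exact ⟨hr.1, hr.2.1⟩
          · obtain ⟨a1, a2, a3⟩ := hr
            have hin : x - n ∈ ins S es := by
              rw [hX] at hxX
              rcases hxX with ⟨-, h | h | h⟩
              · have := h3 _ h; omega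
              · exact h.2.2
              · omega
            rw [hinsmem] at hin
            exfalso
            apply hyX
            rw [hX]
            refine ⟨hy, Or.inl ?_⟩
            simp only at a3
            rcases a3 with a3 | a3
            · rw [a3]; exact hin.2.1
            · rw [a3]; exact hin.2.2
        have k1 := key x y (by simpa using hp)
        have k2 := key x' y' (by simpa using hp')
        simp only at hyy
        rw [Prod.mk.injEq]
        omega
    omega
  · rw [outSize_eq (blueA_nodup n es)]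
    refine Finset.card_le_card_of_injOn (fun p => p.1) ?_ ?_
    · rintro ⟨x, y⟩ hp
      simp only [Finset.coe_filter, List.mem_toFinset, Set.mem_ofPred_eq, mem_blueA, hX] at hp
      obtain ⟨⟨hx, hy⟩, ⟨hx1, h | h | h⟩, -⟩ := hp
      · exact h
      · omega
      · omega
    · rintro ⟨x, y⟩ hp ⟨x', y'⟩ hp' hyy
      simp only [Finset.coe_filter, List.mem_toFinset, Set.mem_ofPred_eq, mem_blueA] at hp hp'
      simp only at hyy
      rw [Prod.mk.injEq]
      omega

/-- a block of `M` vertices, joined to `x ∈ X` and to `y ∉ X`, gives many arcs leaving `X` -/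
theorem block {X : Finset ℕ} {R : List (ℕ × ℕ)} (hR : R.Nodup) {M c : ℕ} {x y : ℕ}
    (hx : x ∈ X) (hy : y ∉ X)
    (h1 : ∀ i < M, c + i ∈ X → (c + i, y) ∈ R)
    (h2 : ∀ i < M, c + i ∉ X → (x, c + i) ∈ R) : M - 1 ≤ outSize X R := by
  rw [outSize_eq hR]
  have hc : M - 1 ≤ ((Finset.range M).erase (x - c)).card := by
    have := Finset.pred_card_le_card_erase (s := Finset.range M) (a := x - c)
    simpa using this
  refine hc.trans (Finset.card_le_card_of_injOn
    (fun i => if c + i ∈ X then (c + i, y) else (x, c + i)) ?_ ?_)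
  · intro i hi
    simp only [Finset.coe_erase, Finset.coe_range, Set.mem_sdiff, Set.mem_Iio,
      Set.mem_singleton_iff] at hi
    simp only [Finset.coe_filter, List.mem_toFinset, Set.mem_ofPred_eq]
    split
    · rename_i h
      exact ⟨h1 i hi.1 h, h, hy⟩
    · rename_i h
      exact ⟨h2 i hi.1 h, hx, h⟩
  · intro i hi j hj hij
    simp only [Finset.coe_erase, Finset.coe_range, Set.mem_sdiff, Set.mem_Iio,
      Set.mem_singleton_iff] at hi hj
    simp only at hij
    split at hij <;> split at hij <;> rw [Prod.mk.injEq] at hij <;> omega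

theorem correct_mpr {n k : ℕ} {es : List (ℕ × ℕ)} {X : Finset ℕ}
    (h1 : ∀ e ∈ es, e.1 < e.2 ∧ e.2 < n) (h2 : es.Nodup) (hk1 : k ≤ n)
    (hk2 : k * (k - 1) ≤ 2 * es.length)
    (hne : X.Nonempty) (hss : X ⊂ Finset.range (vn n es))
    (hr : outSize X (redA n es) ≤ es.length - k * (k - 1) / 2)
    (hb : outSize X (blueA n es) ≤ k) :
    ∃ S : Finset ℕ, (∀ x ∈ S, x < n) ∧ (∀ x ∈ S, ∀ y ∈ S, x < y → (x, y) ∈ es) ∧ S.card = k := by
  set m := es.length with hm
  have hvn : vn n es = n + m + (m + 2) + (m + 2) := rfl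
  obtain ⟨x, hx⟩ := hne
  have hlt : ∀ z ∈ X, z < vn n es := fun z hz => Finset.mem_range.1 (hss.1 hz)
  obtain ⟨y, hy, hyX⟩ := (Finset.ssubset_iff_of_subset hss.1).1 hss
  rw [Finset.mem_range] at hy
  -- the first block lies in `X`
  have hS : ∀ i < m + 2, n + m + i ∈ X := by
    intro b hb
    by_contra hbX
    have := block (X := X) (R := redA n es) (redA_nodup n es) (M := m + 2) (c := n + m) (x := x)
      (y := n + m + b) hx hbX ?_ ?_
    · omega
    · intro i hi hiX
      rw [mem_redA]
      refine ⟨by simp only; omega, by simp only; omega, ?_, Or.inl (by simp only; omega)⟩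
      simp only
      intro h
      rw [h] at hiX
      exact hbX hiX
    · intro i hi hiX
      rw [mem_redA]
      refine ⟨hlt x hx, by simp only; omega, ?_, Or.inl (by simp only; omega)⟩
      simp only
      intro h
      rw [h] at hx
      exact hiX hx
  -- the second block is disjoint from `X`
  have hT : ∀ i < m + 2, n + m + (m + 2) + i ∉ X := by
    intro b hb hbX
    have := block (X := X) (R := redA n es) (redA_nodup n es) (M := m + 2) (c := n + m + (m + 2))
      (x := n + m + (m + 2) + b) (y := y) hbX hyX ?_ ?_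
    · omega
    · intro i hi hiX
      rw [mem_redA]
      refine ⟨by simp only; omega, by simp only; omega, ?_, Or.inr (Or.inl (by simp only; omega))⟩
      simp only
      intro h
      rw [h] at hiX
      exact hyX hiX
    · intro i hi hiX
      rw [mem_redA]
      refine ⟨by simp only; omega, by simp only; omega, ?_, Or.inr (Or.inl (by simp only; omega))⟩
      simp only
      intro h
      rw [h] at hbX
      exact hiX hbX
  have hs : n + m ∈ X := by simpa using hS 0 (by omega)
  have ht : n + m + (m + 2) ∉ X := by simpa using hT 0 (by omega)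
  set S0 := (Finset.range n).filter fun v => v ∈ X with hS0
  have hmS0 : ∀ v, v ∈ S0 ↔ (v < n ∧ v ∈ X) := by intro v; simp [hS0]
  have hc0 : S0.card ≤ k := by
    refine le_trans ?_ hb
    rw [outSize_eq (blueA_nodup n es)]
    refine Finset.card_le_card_of_injOn (fun v => (v, n + m + (m + 2))) ?_ ?_
    · intro v hv
      rw [Finset.mem_coe, hmS0] at hv
      simp only [Finset.coe_filter, List.mem_toFinset, Set.mem_ofPred_eq, mem_blueA]
      exact ⟨⟨hv.1, rfl⟩, hv.2, ht⟩
    · intro v _ w _ hvw
      simpa using hvw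
  have hins : ∀ j, j ∈ ins S0 es ↔ (j < m ∧ (es.getD j (0, 0)).1 ∈ S0 ∧ (es.getD j (0, 0)).2 ∈ S0) := by
    intro j; simp [ins, hm]
  have hJ : m - (ins S0 es).card ≤ outSize X (redA n es) := by
    rw [outSize_eq (redA_nodup n es)]
    have hsub : ins S0 es ⊆ Finset.range m := Finset.filter_subset _ _
    have hc : ((Finset.range m) \ ins S0 es).card = m - (ins S0 es).card := by
      rw [Finset.card_sdiff_of_subset hsub, Finset.card_range]
    rw [← hc]
    refine Finset.card_le_card_of_injOn (fun j => if n + j ∉ X then (n + m, n + j) else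
      if (es.getD j (0, 0)).1 ∉ X then (n + j, (es.getD j (0, 0)).1) else
        (n + j, (es.getD j (0, 0)).2)) ?_ ?_
    · intro j hj
      simp only [Finset.coe_sdiff, Finset.coe_range, Set.mem_sdiff, Set.mem_Iio, Finset.mem_coe] at hj
      obtain ⟨hj1, hj2⟩ := hj
      have hg := getD_lt h1 hj1
      rw [hins] at hj2
      simp only [Finset.coe_filter, List.mem_toFinset, Set.mem_ofPred_eq]
      have hsub' : n + j - n = j := by omega
      split
      · rename_i h
        refine ⟨?_, hs, h⟩
        rw [mem_redA]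
        refine ⟨by simp only; omega, by simp only; omega, by simp only; omega,
          Or.inr (Or.inr (Or.inl ⟨rfl, by simp only; omega, by simp only; omega⟩))⟩
      · rename_i h
        rw [not_not] at h
        split
        · rename_i h'
          refine ⟨?_, h, h'⟩
          rw [mem_redA]
          refine ⟨by simp only; omega, by simp only; omega, by simp only; omega,
            Or.inr (Or.inr (Or.inr ⟨by simp only; omega, by simp only; omega, Or.inl ?_⟩))⟩
          simp only [hsub']
        · rename_i h'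
          rw [not_not] at h'
          refine ⟨?_, h, ?_⟩
          · rw [mem_redA]
            refine ⟨by simp only; omega, by simp only; omega, by simp only; omega,
              Or.inr (Or.inr (Or.inr ⟨by simp only; omega, by simp only; omega, Or.inr ?_⟩))⟩
            simp only [hsub']
          · intro h''
            apply hj2
            refine ⟨hj1, ?_, ?_⟩
            · rw [hmS0]; exact ⟨by omega, h'⟩
            · rw [hmS0]; exact ⟨by omega, h''⟩
    · intro i hi j hj hij
      simp only [Finset.coe_sdiff, Finset.coe_range, Set.mem_sdiff, Set.mem_Iio] at hi hj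
      simp only at hij
      have h5 := hi.1
      have h6 := hj.1
      split at hij <;> split at hij <;> (try split at hij) <;> (try split at hij) <;>
        rw [Prod.mk.injEq] at hij <;> omega
  obtain ⟨S, hS1, hS2, hS3⟩ := Finset.exists_subsuperset_card_eq (s := S0) (t := Finset.range n)
    (Finset.filter_subset _ _) hc0 (by simpa using hk1)
  have e1 : (ins S0 es).card ≤ (ins S es).card := by
    refine Finset.card_le_card fun e he => ?_
    simp only [ins, Finset.mem_filter] at he ⊢
    exact ⟨he.1, hS1 he.2.1, hS1 he.2.2⟩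
  have e2 := ins_le (S := S) h1 h2
  have e3 := card_pairs S
  rw [hS3] at e3
  have e4 : ((S ×ˢ S).filter fun p => p.1 < p.2).card = k * (k - 1) / 2 := by omega
  have e5 : (ins S es).card ≤ m := by
    have : ins S es ⊆ Finset.range m := Finset.filter_subset _ _
    simpa using Finset.card_le_card this
  have e6 : (ins S es).image (fun j => es.getD j (0, 0)) = (S ×ˢ S).filter fun p => p.1 < p.2 := by
    refine Finset.eq_of_subset_of_card_le ?_ ?_
    · intro p hp
      rw [Finset.mem_image] at hp
      obtain ⟨j, hj, rfl⟩ := hp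
      simp only [ins, Finset.mem_filter, Finset.mem_range] at hj
      simp only [Finset.mem_filter, Finset.mem_product]
      exact ⟨hj.2, (getD_lt h1 hj.1).1⟩
    · rw [Finset.card_image_of_injOn]
      · omega
      · intro i hi j hj hij
        simp only [ins, Finset.coe_filter, Finset.mem_range, Set.mem_ofPred_eq] at hi hj
        dsimp only at hij
        rw [List.getD_eq_getElem _ _ hi.1, List.getD_eq_getElem _ _ hj.1] at hij
        exact (h2.getElem_inj_iff).1 hij
  refine ⟨S, fun x hx => Finset.mem_range.1 (hS2 hx), fun x hx y hy hxy => ?_, hS3⟩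
  have : (x, y) ∈ (ins S es).image (fun j => es.getD j (0, 0)) := by
    rw [e6]
    simp [hx, hy, hxy]
  rw [Finset.mem_image] at this
  obtain ⟨j, hj, hj2⟩ := this
  simp only [ins, Finset.mem_filter, Finset.mem_range] at hj
  rw [← hj2, List.getD_eq_getElem _ _ hj.1]
  exact List.getElem_mem _

theorem correct {N : List Unit} {es : List (ℕ × ℕ)} {k : ℕ}
    (h1 : ∀ e ∈ es, e.1 < e.2 ∧ e.2 < N.length) (h2 : es.Nodup) :
    (∃ S : Finset ℕ, (∀ x ∈ S, x < N.length) ∧ (∀ x ∈ S, ∀ y ∈ S, x < y → (x, y) ∈ es) ∧ S.card = k) ↔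
      HasCut (red (N, es, k)) := by
  unfold red
  split
  swap
  · rename_i hk
    dsimp only at hk
    refine iff_of_false ?_ ?_
    · rintro ⟨S, h3, h4, rfl⟩
      refine hk ⟨?_, ?_⟩
      · have := Finset.card_le_card (s := S) (t := Finset.range N.length)
          (fun x hx => Finset.mem_range.2 (h3 x hx))
        simpa using this
      · rw [← card_pairs S]
        have e5 : (ins S es).card ≤ es.length := by
          have : ins S es ⊆ Finset.range es.length := Finset.filter_subset _ _
          simpa using Finset.card_le_card this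
        have := ins_ge h4
        omega
    · rintro ⟨X, ⟨x, hx⟩, hss, hr, -⟩
      obtain ⟨y, hy, hyX⟩ := (Finset.ssubset_iff_of_subset hss.1).1 hss
      have hx2 := hss.1 hx
      simp only [Inst.n, List.length_cons, List.length_nil, Finset.mem_range] at hy hx2
      simp only [Inst.red, Inst.r] at hr
      have hxy : x ≠ y := fun h => hyX (h ▸ hx)
      have h01 : (x = 0 ∧ y = 1) ∨ (x = 1 ∧ y = 0) := by omega
      rcases h01 with ⟨rfl, rfl⟩ | ⟨rfl, rfl⟩
      · simp [outSize, hx, hyX] at hr
      · simp [outSize, hx, hyX] at hr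
  rename_i hk
  dsimp only at hk
  obtain ⟨hk1, hk2⟩ := hk
  simp only [HasCut, Inst.n, Inst.red, Inst.blue, Inst.r, Inst.b, List.length_replicate]
  constructor
  · rintro ⟨S, h3, h4, rfl⟩
    exact correct_mp h3 h4
  · rintro ⟨X, h3, h4, h5, h6⟩
    exact correct_mpr h1 h2 hk1 hk2 h3 h4 h5 h6

theorem np : InNP fun a : {a : Inst // Valid a} => HasCut a.1 := by
  refine InNP.of_cert' (fun (a : {a : Inst // Valid a}) (c : List ℕ) =>
    (∀ x ∈ c, x < a.1.1.length) ∧ c ≠ [] ∧ (∃ y ∈ List.range a.1.1.length, y ∉ c) ∧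
      (a.1.2.1.1.filter fun e => decide (e.1 ∈ c ∧ e.2 ∉ c)).length ≤ a.1.2.2.1 ∧
      (a.1.2.1.2.filter fun e => decide (e.1 ∈ c ∧ e.2 ∉ c)).length ≤ a.1.2.2.2)
    (fun a => a.1.1.length * (size a.1.1.length + 1) + 2) (by fun_prop) (by fun_prop) ?_ ?_
  · rintro ⟨a, ha⟩ c ⟨h1, h2, ⟨y, hy1, hy2⟩, h4, h5⟩
    refine ⟨c.toFinset, ?_, ?_, ?_, ?_⟩
    · rw [List.toFinset_nonempty_iff]; exact h2
    · rw [Finset.ssubset_iff_of_subset]
      · exact ⟨y, by simpa using hy1, by simpa using hy2⟩
      · intro x hx
        simpa using h1 x (by simpa using hx)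
    · rw [outSize]
      simpa using h4
    · rw [outSize]
      simpa using h5
  · rintro ⟨a, ha⟩ ⟨X, h1, h2, h4, h5⟩
    obtain ⟨y, hy, hyX⟩ := (Finset.ssubset_iff_of_subset h2.1).1 h2
    have h1' : ∀ x ∈ X, x < a.1.length := fun x hx => by simpa using h2.1 hx
    refine ⟨X.toList, ?_, by simpa using h1', ?_, ⟨y, by simpa using hy, by simpa using hyX⟩, ?_, ?_⟩
    · refine (size_list_le (B := size a.1.length) fun x hx => ?_).trans ?_
      · exact size_nat_mono (h1' x (Finset.mem_toList.1 hx)).le
      · have : X.toList.length ≤ a.1.length := by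
          rw [Finset.length_toList]
          simpa using Finset.card_le_card (s := X) (t := Finset.range a.1.length)
            (fun x hx => Finset.mem_range.2 (h1' x hx))
        have := Nat.mul_le_mul_right (size a.1.length + 1) this
        dsimp only
        omega
    · obtain ⟨x, hx⟩ := h1
      intro h
      have : x ∈ X.toList := by simpa using hx
      rw [h] at this
      simp at this
    · rw [outSize] at h4
      simpa using h4
    · rw [outSize] at h5
      simpa using h5

theorem hard : NPHard fun a : {a : Inst // Valid a} => HasCut a.1 := by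
  refine NPHard.of_clique (fun a => (⟨red a, valid_red⟩ : {a : Inst // Valid a}))
    (PT.subtype red_pt _) fun n es k h1 h2 _ => ?_
  change _ ↔ HasCut (red (n, es, k))
  rw [correct h1 h2]

/-- The red-blue cut problem in simple directed graphs is NP-complete. -/
theorem result : NPComplete fun a : {a : Inst // Valid a} => HasCut a.1 := ⟨np, hard⟩

end Pool.Agent.Results.MP_ac2b6c_lc.DirectedRedBlueCutNPComplete
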